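import Pool.Agent.Q151.NTL.Seq

/-! # `MP_6d8139_co`: long increasing sequences without three collinear points

`N(x) ≥ x^(2/3) / 200` for every `x ≥ 1`; in particular `N(x) ≤ C √x` fails for every `C`. -/

namespace Pool.Agent.Results.MP_6d8139_co.TwoThirds

open Pool.Agent.Q151.NTL

/-- integers `0 < a_1 < ... < a_n ≤ x` (here `a_{i+1} = a i` for `i : Fin n`) such that no three
of the points `(j, a_j)` of the plane are collinear -/
def Good (x : ℝ) (n : ℕ) (a : Fin n → ℤ) : Prop :=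
  StrictMono a ∧ (∀ i, 0 < a i ∧ (a i : ℝ) ≤ x) ∧
    ∀ i j k : Fin n, i ≠ j → j ≠ k → i ≠ k →
      ¬ Collinear ℝ ({(((i : ℕ) : ℝ) + 1, (a i : ℝ)), (((j : ℕ) : ℝ) + 1, (a j : ℝ)),
        (((k : ℕ) : ℝ) + 1, (a k : ℝ))} : Set (ℝ × ℝ))

/-- `N(x)`: the largest `n` for which there is a good sequence of length `n` -/
noncomputable def N (x : ℝ) : ℕ := sSup {n : ℕ | ∃ a : Fin n → ℤ, Good x n a}

theorem le_of_good (x : ℝ) (n : ℕ) (a : Fin n → ℤ) (h : Good x n a) : n ≤ ⌊x⌋₊ := by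
  rcases Nat.eq_zero_or_pos n with h0 | h0
  · omega
  · have key : ∀ m : ℕ, ∀ hm : m < n, (m : ℤ) + 1 ≤ a ⟨m, hm⟩ := by
      intro m
      induction m with
      | zero => intro hm; have := (h.2.1 ⟨0, hm⟩).1; push_cast; omega
      | succ m ih =>
        intro hm
        have h1 := ih (by omega)
        have h2 : a ⟨m, by omega⟩ < a ⟨m + 1, hm⟩ := h.1 (by rw [Fin.lt_def]; simp)
        push_cast
        omega
    have h1 := key (n - 1) (by omega)
    have h2 := (h.2.1 ⟨n - 1, by omega⟩).2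
    apply Nat.le_floor
    refine le_trans ?_ h2
    have : (n : ℤ) ≤ a ⟨n - 1, by omega⟩ := by omega
    exact_mod_cast this

theorem bdd (x : ℝ) : BddAbove {n : ℕ | ∃ a : Fin n → ℤ, Good x n a} :=
  ⟨⌊x⌋₊, fun _ ⟨a, ha⟩ => le_of_good x _ a ha⟩

theorem le_N (x : ℝ) (n : ℕ) (a : Fin n → ℤ) (h : Good x n a) : n ≤ N x :=
  le_csSup (bdd x) ⟨a, h⟩

theorem det_of_collinear (x1 y1 x2 y2 x3 y3 : ℝ)
    (h : Collinear ℝ ({(x1, y1), (x2, y2), (x3, y3)} : Set (ℝ × ℝ))) :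
    (x2 - x1) * (y3 - y2) = (x3 - x2) * (y2 - y1) := by
  rw [collinear_iff_of_mem (p₀ := (x1, y1)) (by simp)] at h
  obtain ⟨⟨v1, v2⟩, h⟩ := h
  obtain ⟨r, hr⟩ := h (x2, y2) (by simp)
  obtain ⟨t, ht⟩ := h (x3, y3) (by simp)
  simp only [vadd_eq_add, Prod.smul_mk, smul_eq_mul, Prod.mk_add_mk, Prod.mk.injEq] at hr ht
  obtain ⟨r1, r2⟩ := hr
  obtain ⟨t1, t2⟩ := ht
  rw [r1, r2, t1, t2]; ring

theorem exists_good (n : ℕ) (hn : 5 ≤ n) (x : ℝ) (hx : 98 * n * Real.sqrt n ≤ x) : n ≤ N x := by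
  obtain ⟨a, h1, h2, h3, h4⟩ := exists_seq n hn
  have hmono : ∀ i d : ℕ, 1 ≤ i → a i ≤ a ((i : ℤ) + d) := by
    intro i d hi
    induction d with
    | zero => simp
    | succ d ih =>
      have := h1 ((i : ℤ) + d) (by omega)
      push_cast
      rw [← add_assoc]
      omega
  have hlt : ∀ i j : ℕ, 1 ≤ i → i < j → a i < a j := by
    intro i j hi hij
    obtain ⟨d, rfl⟩ := Nat.exists_eq_add_of_lt hij
    have h5 := hmono i d hi
    have h6 := h1 ((i : ℤ) + d) (by omega)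
    push_cast
    omega
  apply le_N x n (fun i => a ((i : ℕ) + 1 : ℕ))
  refine ⟨?_, ?_, ?_⟩
  · intro i j hij
    have hij' : i.1 < j.1 := hij
    exact hlt _ _ (by omega) (by omega)
  · intro i
    have hi := i.2
    constructor
    · simp only
      rcases Nat.eq_zero_or_pos i.1 with h0 | h0
      · rw [h0]; exact_mod_cast h2
      · have := hlt 1 (i.1 + 1) (le_refl _) (by omega)
        have h22 : 0 < a ((1 : ℕ) : ℤ) := by exact_mod_cast h2
        omega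
    · refine le_trans ?_ (h3.trans hx)
      have : a ((i.1 + 1 : ℕ) : ℤ) ≤ a (n : ℤ) := by
        rcases Nat.lt_or_ge (i.1 + 1) n with h5 | h5
        · exact (hlt _ _ (by omega) h5).le
        · have : i.1 + 1 = n := by omega
          rw [this]
      exact_mod_cast this
  · -- non-collinearity; first for increasing indices
    have key : ∀ i j k : Fin n, i < j → j < k →
        ¬ Collinear ℝ ({(((i : ℕ) : ℝ) + 1, (a ((i : ℕ) + 1 : ℕ) : ℝ)),
          (((j : ℕ) : ℝ) + 1, (a ((j : ℕ) + 1 : ℕ) : ℝ)),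
          (((k : ℕ) : ℝ) + 1, (a ((k : ℕ) + 1 : ℕ) : ℝ))} : Set (ℝ × ℝ)) := by
      intro i j k hij hjk hcol
      have h5 := det_of_collinear _ _ _ _ _ _ hcol
      have hij' : i.1 < j.1 := hij
      have hjk' : j.1 < k.1 := hjk
      apply h4 ((i.1 + 1 : ℕ) : ℤ) ((j.1 + 1 : ℕ) : ℤ) ((k.1 + 1 : ℕ) : ℤ)
        (by exact_mod_cast (by omega : i.1 + 1 < j.1 + 1))
        (by exact_mod_cast (by omega : j.1 + 1 < k.1 + 1))
      have h6 : ((((j.1 + 1 : ℕ) : ℤ) - ((i.1 + 1 : ℕ) : ℤ) : ℤ) : ℝ) *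
          ((a ((k.1 + 1 : ℕ) : ℤ) - a ((j.1 + 1 : ℕ) : ℤ) : ℤ) : ℝ) =
          ((((k.1 + 1 : ℕ) : ℤ) - ((j.1 + 1 : ℕ) : ℤ) : ℤ) : ℝ) *
          ((a ((j.1 + 1 : ℕ) : ℤ) - a ((i.1 + 1 : ℕ) : ℤ) : ℤ) : ℝ) := by
        push_cast
        push_cast at h5
        linarith
      exact_mod_cast h6
    intro i j k hij hjk hik hcol
    have perm1 : ∀ p q r : ℝ × ℝ, ({p, q, r} : Set (ℝ × ℝ)) = {q, p, r} := by
      intro p q r; exact Set.insert_comm _ _ _
    have perm2 : ∀ p q r : ℝ × ℝ, ({p, q, r} : Set (ℝ × ℝ)) = {p, r, q} := by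
      intro p q r; rw [Set.pair_comm q r]
    rcases lt_or_gt_of_ne hij with h5 | h5 <;> rcases lt_or_gt_of_ne hjk with h6 | h6 <;>
      rcases lt_or_gt_of_ne hik with h7 | h7
    · exact key i j k h5 h6 hcol
    · exact absurd (h5.trans h6) (not_lt.2 h7.le)
    · rw [perm2] at hcol; exact key i k j h7 h6 hcol
    · rw [perm2, perm1] at hcol; exact key k i j h7 h5 hcol
    · rw [perm1] at hcol; exact key j i k h5 h7 hcol
    · rw [perm1, perm2] at hcol; exact key j k i h6 h7 hcol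
    · exact absurd (h6.trans h5) (not_lt.2 h7.le)
    · rw [perm1, perm2, perm1] at hcol; exact key k j i h6 h5 hcol

theorem one_le_N (x : ℝ) (hx : 1 ≤ x) : 1 ≤ N x := by
  apply le_N x 1 (fun _ => 1)
  refine ⟨?_, ?_, ?_⟩
  · intro i j hij
    exact absurd hij (by rw [Subsingleton.elim i j]; exact lt_irrefl _)
  · intro i
    refine ⟨by norm_num, ?_⟩
    simp only [Int.cast_one]
    exact hx
  · intro i j k hij
    exact absurd (Subsingleton.elim i j) hij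

theorem lower (x : ℝ) (hx : 1 ≤ x) : x ^ (2 / 3 : ℝ) / 200 ≤ N x := by
  have hx0 : 0 < x := by linarith
  set y : ℝ := x ^ (2 / 3 : ℝ) / 22 with hy
  have hxp : 0 < x ^ (2 / 3 : ℝ) := Real.rpow_pos_of_pos hx0 _
  have hy0 : 0 < y := by positivity
  have hyx : 22 * y = x ^ (2 / 3 : ℝ) := by rw [hy]; ring
  by_cases h5 : 5 ≤ y
  · have hn5 : 5 ≤ ⌊y⌋₊ := Nat.le_floor (by exact_mod_cast h5)
    have hny : (⌊y⌋₊ : ℝ) ≤ y := Nat.floor_le hy0.le
    have hny' : y < ⌊y⌋₊ + 1 := Nat.lt_floor_add_one y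
    have key : 98 * (⌊y⌋₊ : ℝ) * Real.sqrt ⌊y⌋₊ ≤ x := by
      have h1 : 98 * (⌊y⌋₊ : ℝ) * Real.sqrt ⌊y⌋₊ ≤ 98 * y * Real.sqrt y := by
        have := Real.sqrt_le_sqrt hny
        have h2 := Real.sqrt_nonneg (⌊y⌋₊ : ℝ)
        have h3 : (0 : ℝ) ≤ ⌊y⌋₊ := Nat.cast_nonneg _
        nlinarith [mul_le_mul hny this h2 hy0.le]
      refine h1.trans ?_
      -- compare squares
      have h2 : (98 * y * Real.sqrt y) ^ 2 ≤ x ^ 2 := by
        have h3 : (98 * y * Real.sqrt y) ^ 2 = 9604 * y ^ 3 := by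
          rw [mul_pow, Real.sq_sqrt hy0.le]; ring
        have h4 : x ^ 2 = (22 * y) ^ 3 := by
          rw [hyx, ← Real.rpow_natCast, ← Real.rpow_natCast, ← Real.rpow_mul hx0.le]
          norm_num
        rw [h3, h4]
        have h6 : 0 < y ^ 3 := by positivity
        nlinarith
      exact le_of_sq_le_sq h2 hx0.le
    have h6 : (⌊y⌋₊ : ℝ) ≤ N x := by exact_mod_cast exists_good _ hn5 x key
    have h7 : x ^ (2 / 3 : ℝ) / 200 ≤ y - 1 := by rw [← hyx]; linarith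
    linarith
  · push Not at h5
    have h1 : (1 : ℝ) ≤ N x := by exact_mod_cast one_le_N x hx
    have : x ^ (2 / 3 : ℝ) / 200 ≤ 1 := by rw [← hyx]; linarith
    linarith

/-- `N(x) ≥ x^(2/3)/200` for all `x ≥ 1`, so there is no constant `C` with
`N(x) ≤ C √x` for all `x ≥ 1`. -/
theorem result : (∀ x : ℝ, 1 ≤ x → x ^ (2 / 3 : ℝ) / 200 ≤ N x) ∧
    ¬ ∃ C : ℝ, ∀ x : ℝ, 1 ≤ x → (N x : ℝ) ≤ C * Real.sqrt x := by
  refine ⟨lower, ?_⟩
  rintro ⟨C, hC⟩
  -- take x = z^6 with z = 200 |C| + 1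
  set z : ℝ := 200 * |C| + 1 with hz
  have hz1 : 1 ≤ z := by have := abs_nonneg C; linarith
  have hz0 : 0 < z := by linarith
  have hx1 : 1 ≤ z ^ 6 := one_le_pow₀ hz1
  have h1 := lower (z ^ 6) hx1
  have h2 := hC (z ^ 6) hx1
  have h3 : (z ^ 6) ^ (2 / 3 : ℝ) = z ^ 4 := by
    rw [← Real.rpow_natCast, ← Real.rpow_mul hz0.le, ← Real.rpow_natCast]
    norm_num
  have h4 : Real.sqrt (z ^ 6) = z ^ 3 := by
    rw [show z ^ 6 = (z ^ 3) ^ 2 by ring, Real.sqrt_sq (by positivity)]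
  rw [h3] at h1
  rw [h4] at h2
  have h5 : z ^ 4 / 200 ≤ C * z ^ 3 := h1.trans h2
  have h6 : C * z ^ 3 ≤ |C| * z ^ 3 := mul_le_mul_of_nonneg_right (le_abs_self C) (by positivity)
  have h7 : z ^ 4 / 200 = z / 200 * z ^ 3 := by ring
  have h8 : z / 200 * z ^ 3 ≤ |C| * z ^ 3 := by linarith
  have h9 : z / 200 ≤ |C| := le_of_mul_le_mul_right h8 (by positivity)
  rw [hz] at h9
  linarith

end Pool.Agent.Results.MP_6d8139_co.TwoThirds
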